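import Pool.Agent.H821.AM.Sharp
import Pool.Graph.R_seed8.TH421.GO.Euc
import Pool.Graph.R_seed8.TH984.GE.Final

/-!
# Equality in `|K| |(K - K)°| ≥ (n+1)/n!`: only simplices
-/

set_option autoImplicit false
set_option linter.all false

open MeasureTheory Set
open scoped ENNReal Pointwise

namespace Pool.Agent.H250.AQ

open Pool.Agent.H821.AM Pool.Agent.TH421.GO

variable {n : ℕ}

/-- in the equality case the mean volume is extremal -/
theorem meanVol_eq {K : Set (Fin n → ℝ)} (hK : IsCompact K) (hc : Convex ℝ K)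
    (hi : (interior K).Nonempty)
    (h : volume K * volume (dpol K) = ENNReal.ofReal (((n : ℝ) + 1) / n.factorial)) :
    meanVol K = ENNReal.ofReal ((2 : ℝ) ^ n / (n + 1)) * volume K := by
  refine le_antisymm (meanVol_le hK hc hi) ?_
  have h1 := asym hK hc hi
  have hpos : (0 : ℝ) < ((n : ℝ) + 1) / n.factorial := by
    have : (0 : ℝ) < n.factorial := by exact_mod_cast n.factorial_pos
    positivity
  have hP0 : volume (dpol K) ≠ 0 := by
    intro h0
    rw [h0, mul_zero] at h
    have := ENNReal.ofReal_pos.2 hpos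
    rw [← h] at this
    exact lt_irrefl _ this
  have hK0 : volume K ≠ 0 := by
    intro h0
    rw [h0, zero_mul] at h
    have := ENNReal.ofReal_pos.2 hpos
    rw [← h] at this
    exact lt_irrefl _ this
  have hPt : volume (dpol K) ≠ ⊤ := by
    intro h0
    rw [h0, ENNReal.mul_top hK0] at h
    exact ENNReal.ofReal_ne_top h.symm
  have e1 : (2 : ℝ) ^ n / n.factorial = (2 ^ n / (n + 1)) * ((n + 1) / n.factorial) := by
    have h3 : (n.factorial : ℝ) ≠ 0 := by exact_mod_cast n.factorial_ne_zero
    field_simp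
  rw [e1, ENNReal.ofReal_mul (by positivity), ← h] at h1
  have h2 : volume (dpol K) * (ENNReal.ofReal ((2 : ℝ) ^ n / (n + 1)) * volume K) ≤
      volume (dpol K) * meanVol K := by
    calc _ = ENNReal.ofReal ((2 : ℝ) ^ n / (n + 1)) * (volume K * volume (dpol K)) := by ring
      _ ≤ _ := h1
  exact (ENNReal.mul_le_mul_iff_right hP0 hPt).1 h2

/-- the volume polynomial in the equality case -/
theorem coef_eq_max {K : Set (Fin n → ℝ)} (hK : IsCompact K) (hc : Convex ℝ K)
    (hi : (interior K).Nonempty)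
    (h : volume K * volume (dpol K) = ENNReal.ofReal (((n : ℝ) + 1) / n.factorial)) :
    ∀ s t : ℝ, 0 < s → 0 < t → (volume (s • K + t • (-K))).toReal =
      ∑ j ∈ Finset.range (n + 1), ((n.choose j : ℝ) ^ 2 * (volume K).toReal) * s ^ (n - j) * t ^ j := by
  have hcore : HCore := fun n m v h => Pool.Agent.TH650.GB.core h
  obtain ⟨d, hd1, hd2⟩ := core_body hcore n K hK hc hi
  have hKf : volume K ≠ ⊤ := hK.measure_lt_top.ne
  have hm := meanVol_eq hK hc hi h
  set v := (volume K).toReal with hv
  have hm2 : meanVol K = ENNReal.ofReal (∑ j ∈ Finset.range (n + 1), d j * (1 / ((n + 1 : ℝ) * n.choose j))) := by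
    unfold meanVol
    rw [← restrict_Ioo_eq_restrict_Icc]
    have h1 : ∀ s ∈ Ioo (0 : ℝ) 1, volume ((1 - s) • K - s • K) =
        ENNReal.ofReal (∑ j ∈ Finset.range (n + 1), d j * (1 - s) ^ (n - j) * s ^ j) := by
      intro s hs
      rw [← hd1 (1 - s) s (by linarith [hs.2]) hs.1, add_neg_eq,
        ENNReal.ofReal_toReal (vol_ne_top hK.isBounded _ _)]
    rw [setLIntegral_congr_fun measurableSet_Ioo h1, ← ofReal_integral_eq_lintegral_ofReal]
    · congr 1
      rw [← integral_Ioc_eq_integral_Ioo, ← intervalIntegral.integral_of_le (by norm_num),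
        intervalIntegral.integral_finsetSum]
      · refine Finset.sum_congr rfl fun j hj => ?_
        have hj' : j ≤ n := Nat.lt_succ_iff.1 (Finset.mem_range.1 hj)
        simp_rw [mul_assoc]
        rw [intervalIntegral.integral_const_mul, beta_choose hj']
      · intro j _
        apply Continuous.intervalIntegrable
        fun_prop
    · exact (Continuous.integrableOn_Icc (by fun_prop)).mono_set Ioo_subset_Icc_self
    · refine (ae_restrict_iff' measurableSet_Ioo).2 (Filter.Eventually.of_forall fun s hs => ?_)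
      refine Finset.sum_nonneg fun j hj => ?_
      have h0 : (0 : ℝ) ≤ 1 - s := by linarith [hs.2]
      have h0' : (0 : ℝ) ≤ s := hs.1.le
      have := (hd2 j (Nat.lt_succ_iff.1 (Finset.mem_range.1 hj))).1
      positivity
  have hsum0 : 0 ≤ ∑ j ∈ Finset.range (n + 1), d j * (1 / ((n + 1 : ℝ) * n.choose j)) := by
    refine Finset.sum_nonneg fun j hj => ?_
    have := (hd2 j (Nat.lt_succ_iff.1 (Finset.mem_range.1 hj))).1
    positivity
  have hv0 : 0 ≤ v := ENNReal.toReal_nonneg
  have hsum : ∑ j ∈ Finset.range (n + 1), d j * (1 / ((n + 1 : ℝ) * n.choose j)) =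
      ∑ j ∈ Finset.range (n + 1), ((n.choose j : ℝ) ^ 2 * v) * (1 / ((n + 1 : ℝ) * n.choose j)) := by
    have e1 : ∑ j ∈ Finset.range (n + 1), ((n.choose j : ℝ) ^ 2 * v) * (1 / ((n + 1 : ℝ) * n.choose j)) =
        (2 : ℝ) ^ n / (n + 1) * v := by
      have : ∀ j ∈ Finset.range (n + 1), ((n.choose j : ℝ) ^ 2 * v) * (1 / ((n + 1 : ℝ) * n.choose j)) =
          (n.choose j : ℝ) * (v / (n + 1)) := by
        intro j hj
        have hc' : (n.choose j : ℝ) ≠ 0 := by
          exact_mod_cast (Nat.choose_pos (Nat.lt_succ_iff.1 (Finset.mem_range.1 hj))).ne'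
        field_simp
      rw [Finset.sum_congr rfl this, ← Finset.sum_mul]
      have h2 : ∑ j ∈ Finset.range (n + 1), (n.choose j : ℝ) = 2 ^ n := by
        exact_mod_cast Nat.sum_range_choose n
      rw [h2]
      ring
    rw [e1]
    rw [hm, ← ENNReal.ofReal_toReal hKf, ← ENNReal.ofReal_mul (by positivity)] at hm2
    have := (ENNReal.ofReal_eq_ofReal_iff (by positivity) hsum0).1 hm2
    rw [← this]
  have hall := (Finset.sum_eq_sum_iff_of_le (fun j hj => by
    have h1 := (hd2 j (Nat.lt_succ_iff.1 (Finset.mem_range.1 hj))).2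
    exact mul_le_mul_of_nonneg_right h1 (by positivity))).1 hsum
  have hdj : ∀ j ∈ Finset.range (n + 1), d j = (n.choose j : ℝ) ^ 2 * v := by
    intro j hj
    have h1 := hall j hj
    have hc' : (n.choose j : ℝ) ≠ 0 := by
      exact_mod_cast (Nat.choose_pos (Nat.lt_succ_iff.1 (Finset.mem_range.1 hj))).ne'
    have hne : (1 / ((n + 1 : ℝ) * n.choose j)) ≠ 0 := by positivity
    exact mul_right_cancel₀ hne h1
  intro s t hs ht
  rw [hd1 s t hs ht]
  refine Finset.sum_congr rfl fun j hj => ?_
  rw [hdj j hj]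

/-- **only simplices**: Euclidean form -/
theorem simplex_of_eq {K : Set (EuclideanSpace ℝ (Fin n))} (hn : 2 ≤ n) (hK : IsCompact K)
    (hc : Convex ℝ K) (hi : (interior K).Nonempty)
    (h : volume K * volume (dpol (eq n '' K)) = ENNReal.ofReal (((n : ℝ) + 1) / n.factorial)) :
    ∃ v : Fin (n + 1) → EuclideanSpace ℝ (Fin n),
      AffineIndependent ℝ v ∧ K = convexHull ℝ (Set.range v) := by
  have hK' : IsCompact (eq n '' K) := hK.image (eq n).continuous
  have hc' : Convex ℝ (eq n '' K) :=
    hc.linear_image ((eq n : EuclideanSpace ℝ (Fin n) →ₗ[ℝ] (Fin n → ℝ)))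
  have hi' := int_image n K hi
  rw [← vol_image n K] at h
  have h1 := coef_eq_max hK' hc' hi' h
  rw [vol_image] at h1
  have hne : K.Nonempty := hi.mono interior_subset
  set v := (volume K).toReal with hv
  have h2 : ∀ s t : ℝ, 0 ≤ s → 0 ≤ t → (volume (s • K + t • (-K))).toReal =
      ∑ i ∈ Finset.range (n + 1), (n.choose i : ℝ) * ((n.choose i : ℝ) * v) * s ^ i * t ^ (n - i) := by
    intro s t hs ht
    rcases hs.eq_or_lt with rfl | hs'
    · rw [Set.zero_smul_set hne, zero_add, Measure.addHaar_smul, Measure.measure_neg]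
      simp only [ENNReal.toReal_mul]
      rw [ENNReal.toReal_ofReal (abs_nonneg _), abs_of_nonneg (by positivity)]
      rw [Finset.sum_eq_single 0]
      · simp [hv, mul_comm]
      · intro i _ hi0
        simp [zero_pow hi0]
      · simp
    rcases ht.eq_or_lt with rfl | ht'
    · rw [Set.zero_smul_set (by simpa using hne), add_zero, Measure.addHaar_smul]
      simp only [ENNReal.toReal_mul]
      rw [ENNReal.toReal_ofReal (abs_nonneg _), abs_of_nonneg (by positivity)]
      rw [Finset.sum_eq_single n]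
      · simp [hv, mul_comm]
      · intro i hi0 hin
        have hlt : i < n + 1 := Finset.mem_range.1 hi0
        have : n - i ≠ 0 := by omega
        simp [zero_pow this]
      · simp
    have h3 := image_diff ((eq n : EuclideanSpace ℝ (Fin n) →ₗ[ℝ] (Fin n → ℝ))) K K s t
    simp only [LinearEquiv.coe_coe, ContinuousLinearEquiv.coe_toLinearEquiv] at h3
    have h4 := h1 s t hs' ht'
    rw [add_neg_eq, ← h3, vol_image, sub_eq_add_neg, ← Set.smul_set_neg] at h4
    rw [h4, ← Finset.sum_range_reflect]
    refine Finset.sum_congr rfl fun j hj => ?_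
    have hj' : j ≤ n := Nat.lt_succ_iff.1 (Finset.mem_range.1 hj)
    have e1 : n + 1 - 1 - j = n - j := by omega
    rw [e1, Nat.choose_symm hj', Nat.sub_sub_self hj']
    ring
  exact Pool.Agent.TH984.GE12.simplex_of_coef (j := 1) one_pos (by omega) hK hc hi
    (fun i => (n.choose i : ℝ) * v) h2 rfl

end Pool.Agent.H250.AQ
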