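import Pool.Agent.H821.AM.Sharp
import Pool.Agent.H223.DM.Polar
import Pool.Graph.R_seed8.TH421.GO.Euc

/-!
# The projections on lines and the polar body of the difference body
-/

set_option autoImplicit false
set_option linter.all false

open MeasureTheory Set
open scoped ENNReal Pointwise InnerProductSpace

namespace Pool.Agent.H250.AQ

open Pool.Agent.H821.AM Pool.Agent.TH421.GO

variable {n : ℕ}

abbrev E (n : ℕ) : Type := EuclideanSpace ℝ (Fin n)

/-- the width of `K` in the direction `u` -/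
noncomputable def W (K : Set (E n)) (u : E n) : ℝ := wd (eq n '' K) (eq n u)

theorem dot_eq (x u : E n) : (eq n x) ⬝ᵥ (eq n u) = ⟪x, u⟫_ℝ := by
  rw [PiLp.inner_apply]
  simp only [dotProduct, RCLike.inner_apply, conj_trivial]
  exact Finset.sum_congr rfl fun i _ => mul_comm _ _

theorem W_le_iff {K : Set (E n)} (hK : IsCompact K) (hne : K.Nonempty) {u : E n} {c : ℝ} :
    W K u ≤ c ↔ ∀ x ∈ K, ∀ y ∈ K, ⟪x - y, u⟫_ℝ ≤ c := by
  unfold W
  rw [wd_le_iff (hK.image (eq n).continuous) (hne.image _)]
  simp only [forall_mem_image]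
  refine forall₂_congr fun x _ => forall₂_congr fun y _ => ?_
  rw [← map_sub, dot_eq]

theorem W_smul {K : Set (E n)} (hK : IsCompact K) (hne : K.Nonempty) (u : E n) {t : ℝ} (ht : 0 < t) :
    W K (t • u) = t * W K u := by
  refine le_antisymm ?_ ?_
  · rw [W_le_iff hK hne]
    intro x hx y hy
    rw [inner_smul_right]
    exact mul_le_mul_of_nonneg_left ((W_le_iff hK hne).1 le_rfl x hx y hy) ht.le
  · rw [← le_div_iff₀' ht, W_le_iff hK hne]
    intro x hx y hy
    rw [le_div_iff₀' ht]
    have := (W_le_iff hK hne).1 (le_refl (W K (t • u))) x hx y hy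
    rwa [inner_smul_right] at this

theorem W_pos {K : Set (E n)} (hK : IsCompact K) (hi : (interior K).Nonempty) {u : E n}
    (hu : u ≠ 0) : 0 < W K u := by
  obtain ⟨x, hx⟩ := hi
  have hne : K.Nonempty := ⟨x, interior_subset hx⟩
  have hcont : Filter.Tendsto (fun t : ℝ => x + t • u) (nhdsWithin 0 (Ioi 0)) (nhds x) := by
    have : Continuous fun t : ℝ => x + t • u := by fun_prop
    have h2 := this.tendsto 0
    simp only [zero_smul, add_zero] at h2
    exact h2.mono_left nhdsWithin_le_nhds
  have hev := hcont.eventually (mem_interior_iff_mem_nhds.1 hx)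
  have hpos : ∀ᶠ t : ℝ in nhdsWithin 0 (Ioi 0), t ∈ Ioi (0 : ℝ) := self_mem_nhdsWithin
  obtain ⟨t, ht, ht0⟩ := (hev.and hpos).exists
  have h1 := (W_le_iff hK hne).1 (le_refl (W K u)) _ ht x (interior_subset hx)
  rw [add_sub_cancel_left, inner_smul_left, conj_trivial, real_inner_self_eq_norm_sq] at h1
  have hn : 0 < ‖u‖ := norm_pos_iff.2 hu
  have ht0' : (0 : ℝ) < t := ht0
  have : 0 < t * ‖u‖ ^ 2 := by positivity
  linarith

theorem W_measurable {K : Set (E n)} (hK : IsCompact K) (hne : K.Nonempty) : Measurable (W K) := by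
  refine measurable_of_Iic fun c => ?_
  have : W K ⁻¹' Iic c = ⋂ x ∈ K, ⋂ y ∈ K, {u : E n | ⟪x - y, u⟫_ℝ ≤ c} := by
    ext u
    simp only [mem_preimage, mem_Iic, W_le_iff hK hne, mem_iInter, mem_ofPred_eq]
  rw [this]
  exact (isClosed_biInter fun x _ => isClosed_biInter fun y _ =>
    isClosed_le (by fun_prop) continuous_const).measurableSet

/-- the polar body of the difference body -/
def D (K : Set (E n)) : Set (E n) := {u | W K u ≤ 1}

theorem vol_D {K : Set (E n)} (hK : IsCompact K) (hne : K.Nonempty) :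
    volume (D K) = volume (dpol (eq n '' K)) := by
  rw [← vol_image n]
  congr 1
  ext u
  simp only [mem_image, D, mem_ofPred_eq, W, dpol, wd_le_iff (hK.image (eq n).continuous) (hne.image _)]
  constructor
  · rintro ⟨x, hx, rfl⟩
    exact hx
  · intro h
    exact ⟨(eq n).symm u, by simpa using h, by simp⟩

theorem D_convex {K : Set (E n)} (hK : IsCompact K) (hne : K.Nonempty) : Convex ℝ (D K) := by
  intro u hu v hv a b ha hb hab
  simp only [D, mem_ofPred_eq, W_le_iff hK hne] at hu hv ⊢
  intro x hx y hy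
  have h1 := hu x hx y hy
  have h2 := hv x hx y hy
  rw [inner_add_right, inner_smul_right, inner_smul_right]
  nlinarith

theorem vol_C {K : Set (E (n + 1))} (hK : IsCompact K) (hne : K.Nonempty) :
    volume {x : E (n + 1) | x ≠ 0 ∧ W K x < 1} = volume (D K) := by
  refine le_antisymm (measure_mono fun x hx => hx.2.le) ?_
  have h0 : volume (frontier (D K) ∪ {0}) = 0 := by
    rw [measure_union_null_iff]
    exact ⟨(D_convex hK hne).addHaar_frontier volume, measure_singleton _⟩
  have hsub : D K ⊆ {x : E (n + 1) | x ≠ 0 ∧ W K x < 1} ∪ (frontier (D K) ∪ {0}) := by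
    intro x hx
    by_cases hx0 : x = 0
    · exact Or.inr (Or.inr hx0)
    by_cases hlt : W K x < 1
    · exact Or.inl ⟨hx0, hlt⟩
    refine Or.inr (Or.inl ?_)
    refine ⟨subset_closure hx, fun hint => ?_⟩
    have h1 : W K x = 1 := le_antisymm hx (not_lt.1 hlt)
    have hcont : Filter.Tendsto (fun t : ℝ => (1 + t) • x) (nhdsWithin 0 (Ioi 0)) (nhds x) := by
      have : Continuous fun t : ℝ => (1 + t) • x := by fun_prop
      have h2 := this.tendsto 0
      simp only [add_zero, one_smul] at h2
      exact h2.mono_left nhdsWithin_le_nhds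
    have hev := hcont.eventually (mem_interior_iff_mem_nhds.1 hint)
    have hpos : ∀ᶠ t : ℝ in nhdsWithin 0 (Ioi 0), t ∈ Ioi (0 : ℝ) := self_mem_nhdsWithin
    obtain ⟨t, ht, ht0⟩ := (hev.and hpos).exists
    have ht0' : (0 : ℝ) < t := ht0
    have h3 : W K ((1 + t) • x) ≤ 1 := ht
    rw [W_smul hK hne x (by linarith), h1] at h3
    linarith
  calc volume (D K) ≤ volume ({x : E (n + 1) | x ≠ 0 ∧ W K x < 1} ∪ (frontier (D K) ∪ {0})) :=
        measure_mono hsub
    _ ≤ volume {x : E (n + 1) | x ≠ 0 ∧ W K x < 1} + volume (frontier (D K) ∪ {0}) :=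
        measure_union_le _ _
    _ = _ := by rw [h0, add_zero]

/-- polar coordinates -/
theorem lint_W {K : Set (E (n + 1))} (hK : IsCompact K) (hi : (interior K).Nonempty) :
    ∫⁻ w : Metric.sphere (0 : E (n + 1)) 1, ENNReal.ofReal ((1 / W K w) ^ (n + 1))
      ∂((volume : Measure (E (n + 1))).toSphere) = (n + 1) * volume (D K) := by
  have hne : K.Nonempty := hi.mono interior_subset
  have hw0 : ∀ w : Metric.sphere (0 : E (n + 1)) 1, (w : E (n + 1)) ≠ 0 := by
    intro w h
    have := norm_eq_of_mem_sphere w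
    rw [h, norm_zero] at this
    norm_num at this
  have hmC : MeasurableSet {x : E (n + 1) | x ≠ 0 ∧ W K x < 1} := by
    refine MeasurableSet.inter ?_ ?_
    · exact (measurableSet_singleton (0 : E (n + 1))).compl
    · exact measurableSet_lt (W_measurable hK hne) measurable_const
  have h := Pool.Agent.H223.DM.polar n univ MeasurableSet.univ (fun w => 1 / W K w)
    (fun w _ => one_div_pos.2 (W_pos hK hi (hw0 w))) {x : E (n + 1) | x ≠ 0 ∧ W K x < 1} hmC
    (fun h => h.1 rfl) (fun w t ht => by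
      have hp := W_pos hK hi (hw0 w)
      simp only [mem_ofPred_eq, mem_univ, true_and]
      rw [W_smul hK hne _ ht, lt_div_iff₀ hp]
      constructor
      · exact fun h => h.2
      · exact fun h => ⟨smul_ne_zero ht.ne' (hw0 w), h⟩)
  rw [Measure.restrict_univ, vol_C hK hne] at h
  exact h

/-- the length of the projection on a line -/
theorem shadow_eq' {K : Set (E n)} (hK : IsCompact K) (hc : Convex ℝ K) (hne : K.Nonempty)
    {u : E n} (hu : ‖u‖ = 1) :
    volume ((fun x : E n => ⟪u, x⟫_ℝ) '' K) = ENNReal.ofReal (W K u) := by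
  set s := (fun x => ⟪u, x⟫_ℝ) '' K with hs
  have hcomp : IsCompact s := hK.image (by fun_prop)
  have hconn : IsConnected s := ⟨hne.image _, (hc.isPreconnected).image _ (by fun_prop)⟩
  have h4 := eq_Icc_of_connected_compact hconn hcomp
  rw [h4, Real.volume_Icc]
  congr 1
  obtain ⟨x, hx, hxe⟩ := hcomp.sSup_mem hconn.1
  obtain ⟨y, hy, hye⟩ := hcomp.sInf_mem hconn.1
  refine le_antisymm ?_ ?_
  · rw [← hxe, ← hye]
    have := (W_le_iff hK hne).1 (le_refl (W K u)) x hx y hy
    rw [inner_sub_left, real_inner_comm u x, real_inner_comm u y] at this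
    exact this
  · rw [W_le_iff hK hne]
    intro a ha b hb
    rw [inner_sub_left, real_inner_comm u a, real_inner_comm u b]
    have h5 : ⟪u, a⟫_ℝ ≤ sSup s := le_csSup hcomp.bddAbove ⟨a, ha, rfl⟩
    have h6 : sInf s ≤ ⟪u, b⟫_ℝ := csInf_le hcomp.bddBelow ⟨b, hb, rfl⟩
    linarith

end Pool.Agent.H250.AQ
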