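import Pool.Agent.H821.AM.Sharp
import Pool.Graph.R_seed8.TH421.GO.Euc

/-!
# Equality for every simplex
-/

set_option autoImplicit false
set_option linter.all false

open MeasureTheory Set
open scoped ENNReal Pointwise

namespace Pool.Agent.H250.AQ

open Pool.Agent.H821.AM Pool.Agent.TH421.GO

variable {n : ℕ}

/-- affine invariance of the product -/
theorem affine_inv (K : Set (Fin n → ℝ)) (M : Matrix (Fin n) (Fin n) ℝ) (hM : M.det ≠ 0)
    (c : Fin n → ℝ) :
    volume ((fun x => M.mulVec x + c) '' K) * volume (dpol ((fun x => M.mulVec x + c) '' K)) =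
      volume K * volume (dpol K) := by
  have h1 : volume ((fun x => M.mulVec x + c) '' K) = ENNReal.ofReal |M.det| * volume K := by
    have : (fun x => M.mulVec x + c) '' K = (fun x => x + c) '' (Matrix.toLin' M '' K) := by
      rw [image_image]
      rfl
    rw [this]
    have h2 : volume ((fun x => x + c) '' (Matrix.toLin' M '' K)) = volume (Matrix.toLin' M '' K) := by
      rw [image_add_right, measure_preimage_add_right]
    rw [h2, Measure.addHaar_image_linearMap, LinearMap.det_toLin']
  have h2 : dpol ((fun x => M.mulVec x + c) '' K) = (Matrix.toLin' M.transpose) ⁻¹' (dpol K) := by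
    ext u
    unfold dpol
    simp only [mem_ofPred_eq, mem_preimage, forall_mem_image]
    refine forall₂_congr fun x _ => forall₂_congr fun y _ => ?_
    have e : (M.mulVec x + c - (M.mulVec y + c)) ⬝ᵥ u = (x - y) ⬝ᵥ (Matrix.toLin' M.transpose) u := by
      rw [add_sub_add_right_eq_sub, ← Matrix.mulVec_sub, Matrix.toLin'_apply, Matrix.mulVec_transpose,
        dotProduct_comm, Matrix.dotProduct_mulVec, dotProduct_comm]
    rw [e]
  have hd : LinearMap.det (Matrix.toLin' M.transpose) = M.det := by
    rw [LinearMap.det_toLin', Matrix.det_transpose]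
  rw [h1, h2, Measure.addHaar_preimage_linearMap _ (by rw [hd]; exact hM), hd]
  have e3 : ENNReal.ofReal |M.det| * ENNReal.ofReal |M.det⁻¹| = 1 := by
    rw [← ENNReal.ofReal_mul (abs_nonneg _), ← abs_mul, mul_inv_cancel₀ hM]
    simp
  calc ENNReal.ofReal |M.det| * volume K * (ENNReal.ofReal |M.det⁻¹| * volume (dpol K))
      = (ENNReal.ofReal |M.det| * ENNReal.ofReal |M.det⁻¹|) * (volume K * volume (dpol K)) := by ring
    _ = _ := by rw [e3, one_mul]

/-- a simplex as an image of the standard simplex -/
theorem hull_eq (w : Fin (n + 1) → Fin n → ℝ) :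
    convexHull ℝ (range w) =
      (fun x => (Matrix.of fun j i => w (Fin.succ i) j - w 0 j).mulVec x + w 0) '' spx n := by
  have h1 : convexHull ℝ (range w) =
      (Fintype.linearCombination ℝ w) '' stdSimplex ℝ (Fin (n + 1)) := by
    rw [← convexHull_basis_eq_stdSimplex, LinearMap.image_convexHull, ← range_comp]
    congr 2
    ext i j
    simp only [Function.comp_apply, Fintype.linearCombination_apply, Finset.sum_apply, Pi.smul_apply,
      smul_eq_mul, ite_mul, one_mul, zero_mul, Finset.sum_ite_eq, Finset.mem_univ, if_true]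
  rw [h1]
  ext z
  simp only [mem_image]
  constructor
  · rintro ⟨a, ha, rfl⟩
    refine ⟨fun i => a (Fin.succ i), ⟨fun i => ha.1 _, ?_⟩, ?_⟩
    · have := ha.2
      rw [Fin.sum_univ_succ] at this
      linarith [ha.1 0]
    · ext j
      have h2 := ha.2
      rw [Fin.sum_univ_succ] at h2
      have h3 : a 0 = 1 - ∑ i : Fin n, a (Fin.succ i) := by linarith
      simp only [Matrix.mulVec, dotProduct, Matrix.of_apply, Pi.add_apply,
        Fintype.linearCombination_apply, Finset.sum_apply, Pi.smul_apply, smul_eq_mul]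
      rw [Fin.sum_univ_succ, h3]
      have : ∑ i : Fin n, (w (Fin.succ i) j - w 0 j) * a (Fin.succ i) =
          ∑ i : Fin n, a (Fin.succ i) * w (Fin.succ i) j - (∑ i : Fin n, a (Fin.succ i)) * w 0 j := by
        rw [Finset.sum_mul, ← Finset.sum_sub_distrib]
        exact Finset.sum_congr rfl fun i _ => by ring
      rw [this]
      ring
  · rintro ⟨x, hx, rfl⟩
    refine ⟨Fin.cons (1 - ∑ i, x i) x, ⟨fun i => ?_, ?_⟩, ?_⟩
    · refine Fin.cases ?_ (fun i => ?_) i
      · simpa using hx.2
      · simpa using hx.1 i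
    · rw [Fin.sum_univ_succ]
      simp
    · ext j
      simp only [Matrix.mulVec, dotProduct, Matrix.of_apply, Pi.add_apply,
        Fintype.linearCombination_apply, Finset.sum_apply, Pi.smul_apply, smul_eq_mul]
      rw [Fin.sum_univ_succ]
      simp only [Fin.cons_zero, Fin.cons_succ]
      have : ∑ i : Fin n, (w (Fin.succ i) j - w 0 j) * x i =
          ∑ i : Fin n, x i * w (Fin.succ i) j - (∑ i : Fin n, x i) * w 0 j := by
        rw [Finset.sum_mul, ← Finset.sum_sub_distrib]
        exact Finset.sum_congr rfl fun i _ => by ring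
      rw [this]
      ring

theorem det_ne (w : Fin (n + 1) → Fin n → ℝ) (hw : AffineIndependent ℝ w) :
    (Matrix.of fun j i => w (Fin.succ i) j - w 0 j : Matrix (Fin n) (Fin n) ℝ).det ≠ 0 := by
  have h1 := (affineIndependent_iff_linearIndependent_vsub ℝ w 0).1 hw
  have h2 : LinearIndependent ℝ (fun i : Fin n => w (Fin.succ i) - w 0) := by
    have := h1.comp (fun i : Fin n => (⟨Fin.succ i, Fin.succ_ne_zero i⟩ : {x : Fin (n + 1) // x ≠ 0}))
      (fun i j hij => Fin.succ_injective _ (congrArg Subtype.val hij))
    exact this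
  have h3 : LinearIndependent ℝ (Matrix.of fun j i => w (Fin.succ i) j - w 0 j : Matrix (Fin n) (Fin n) ℝ).col := h2
  rw [Matrix.linearIndependent_cols_iff_isUnit] at h3
  exact ((Matrix.isUnit_iff_isUnit_det _).1 h3).ne_zero

/-- equality for every simplex of `ℝⁿ` -/
theorem eq_simplex (v : Fin (n + 1) → EuclideanSpace ℝ (Fin n)) (hv : AffineIndependent ℝ v) :
    volume (convexHull ℝ (range v)) * volume (dpol (eq n '' convexHull ℝ (range v))) =
      ENNReal.ofReal (((n : ℝ) + 1) / n.factorial) := by
  have e1 : eq n '' convexHull ℝ (range v) = convexHull ℝ (range fun i => eq n (v i)) := by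
    have := LinearMap.image_convexHull (𝕜 := ℝ) ((eq n : EuclideanSpace ℝ (Fin n) →ₗ[ℝ] (Fin n → ℝ))) (range v)
    rw [← range_comp] at this
    exact this
  have hw : AffineIndependent ℝ (fun i => eq n (v i)) := by
    have := hv.map' ((eq n).toLinearEquiv.toLinearMap.toAffineMap) (eq n).injective
    exact this
  rw [← vol_image n, e1, hull_eq, affine_inv _ _ (det_ne _ hw), (spx_eq n).1]

end Pool.Agent.H250.AQ
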